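import Pool.Agent.N162.HN.Stm
import Pool.Agent.Y692.NT.Tr
import Pool.Agent.N162.BC.Pull
import Pool.Agent.Y172.Cov3

/-!
# The fibres of a map to a variety without canonical forms have null trace
-/

set_option autoImplicit false

open FF Pool.Agent.W603.LV Pool.Agent.Y184.NT Pool.Agent.N162.BC Pool.Agent.W602.GT

namespace Pool.Agent.N386.HN

/-- the sum over the embeddings over `L` is the trace -/
theorem sum_fix (L K Ω : Type) [Field L] [Algebra ℂ L] [Field K] [Algebra ℂ K]
    [Algebra L K] [IsScalarTower ℂ L K] [FiniteDimensional L K] [Field Ω] [Algebra ℂ Ω]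
    [Algebra L Ω] [IsScalarTower ℂ L Ω] [IsAlgClosed Ω] (f : (K →ₐ[ℂ] Ω) →₀ ℤ)
    (hf : ∀ σ : K →ₐ[ℂ] Ω,
      (f σ = 1 ∧ ∀ a : L, σ (algebraMap L K a) = algebraMap L Ω a) ∨
      (f σ = 0 ∧ ¬ ∀ a : L, σ (algebraMap L K a) = algebraMap L Ω a)) (a : K) :
    ∑ σ ∈ f.support, (f σ : Ω) * σ a = algebraMap L Ω (Algebra.trace L K a) := by
  classical
  have hcL : CharZero L := charZero_of_injective_algebraMap (algebraMap ℂ L).injective
  have hsep : Algebra.IsSeparable L K := inferInstance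
  rw [trace_eq_sum_embeddings (K := L) Ω]
  have h1 : ∀ σ ∈ f.support, f σ = 1 ∧ ∀ a : L, σ (algebraMap L K a) = algebraMap L Ω a := by
    intro σ hσ
    rcases hf σ with h | h
    · exact h
    · exact absurd h.1 (Finsupp.mem_support_iff.1 hσ)
  refine Finset.sum_bij' (fun σ hσ => ({ σ with commutes' := (h1 σ hσ).2 } : K →ₐ[L] Ω))
    (fun τ _ => τ.restrictScalars ℂ) (fun σ hσ => Finset.mem_univ _) (fun τ _ => ?_)
    (fun σ hσ => ?_) (fun τ _ => ?_) (fun σ hσ => ?_)
  · rw [Finsupp.mem_support_iff]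
    intro h0
    rcases hf (τ.restrictScalars ℂ) with h | h
    · rw [h.1] at h0
      exact one_ne_zero h0
    · exact h.2 fun a => τ.commutes a
  · rfl
  · rfl
  · have h2 : (f σ : Ω) = 1 := by rw [(h1 σ hσ).1, Int.cast_one]
    have h3 : (f σ : Ω) * σ a = σ a := by rw [h2, one_mul]
    exact h3

theorem nt_ : Pool.Agent.N162.HN.StNT := by
  intro n L K Ω _ _ _ _ _ _ _ _ _ _ _ _ _ _ hn hL f hf ω hω z E hz hE D
  have hcL : CharZero L := charZero_of_injective_algebraMap (algebraMap ℂ L).injective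
  obtain ⟨l, E0, hl, hE0⟩ := Pool.Agent.Y172.exists_crd (k := ℂ) (K := L) hn
  choose E' hE' using fun i : Fin n =>
    Pool.Agent.Y172.exists_lift (k := ℂ) (K := L) (L := K) hn (E0 i)
  have hl2 : IsTranscendenceBasis ℂ (fun j => algebraMap L K (l j)) := hl.algebraMap_comp
  have hE2 := fun i j => Pool.Agent.Y172.lift_dual (L := K) hE0 hE' i j
  have htr : Algebra.trace L K (ω E') = 0 :=
    Pool.Agent.Y692.NT.t_Tr L K n hn hL ω hω.1 hω.2 E0 E' hE'
  have h1 : ∀ σ ∈ f.support, (f σ : Ω) * pullback σ z E ω D =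
      (Matrix.of fun i j => D i (algebraMap L Ω (l j))).det * ((f σ : Ω) * σ (ω E')) := by
    intro σ hσ
    have h2 : ∀ a : L, σ (algebraMap L K a) = algebraMap L Ω a := by
      rcases hf σ with h | h
      · exact h.2
      · exact absurd h.1 (Finsupp.mem_support_iff.1 hσ)
    rw [pullback_indep σ hz hE hl2 hE2 hω.1 D]
    unfold pullback
    simp only [h2]
    ring
  rw [Finset.sum_congr rfl h1, ← Finset.mul_sum, sum_fix L K Ω f hf, htr, map_zero, mul_zero]

end Pool.Agent.N386.HN
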